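import Pool.Agent.H.MP_8a71fe_al.D

set_option autoImplicit false

namespace Pool.Agent.Results.MP_8a71fe_al.Yes

open Pool.Agent.HShift Pool.Agent.CharDep

/-- The Betti numbers of the `l`-th power of the monomial ideal given by `B` depend on the field. -/
def Dep {n : ℕ} (B : Set (Fin n →₀ ℕ)) (l : ℕ) : Prop :=
  ∃ (K K' : Type) (_ : Field K) (_ : Field K') (i : ℕ) (a : Fin n →₀ ℕ),
    betti (mi K B ^ l) i a ≠ betti (mi K' B ^ l) i a

theorem result (h : ℕ) (hh : 1 ≤ h) : ∃ (n : ℕ) (B : Set (Fin n →₀ ℕ)), B.Finite ∧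
    (∀ l, 1 ≤ l → l < h → ¬ Dep B l) ∧ ∀ l, h ≤ l → Dep B l := by
  have e : ∀ (K : Type) [Field K] l, mi K (BB (2 * h - 1)) ^ l = mi K (Sm (BB (2 * h - 1)) l) :=
    fun K _ l => span_pow _ l
  refine ⟨8, BB (2 * h - 1), BB_fin _, fun l _ hl ⟨K, K', _, _, i, a, h1⟩ => h1 ?_, fun l hl =>
    ⟨ZMod 2, ℚ, inferInstance, inferInstance, 3,
      pt (2 * h - 1) ((2 * h - 1 + 1) * l - (2 * h - 1)), ?_⟩⟩
  · rw [e, e]
    exact (conc (by omega) a).betti K'
  · have h1 := dl_rp (d := 2 * h - 1) (l := l) (by omega) (by omega)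
    rw [e, e, (betti_zero (K := ℚ)).2, Ne, betti_zero, h1]
    · exact rp2
    · rw [h1]
      exact fun c h2 h3 => ⟨0, fun _ h => absurd rfl h, bd_zero.trans (cyc0 c h2 h3).symm⟩

end Pool.Agent.Results.MP_8a71fe_al.Yes
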